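import Mathlib

set_option autoImplicit false

namespace Pool.Agent.H.WO

open Finset

variable {V E : Type} [Fintype V] [Fintype E] [DecidableEq V] (s t : E → V)

def bd (x : E → ZMod 2) (v : V) : ZMod 2 :=
  ∑ e, ((if s e = v then x e else 0) + (if t e = v then x e else 0))

lemma bd_add (x y : E → ZMod 2) (v : V) : bd s t (x + y) v = bd s t x v + bd s t y v := by
  simp only [bd, ← sum_add_distrib, Pi.add_apply]
  refine sum_congr rfl fun e _ => ?_
  split_ifs <;> ring

lemma z2 (a : ZMod 2) : a + a = 0 := by revert a; decide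

lemma bd_sum {Q : Type} [DecidableEq Q] (q : V → Q) (x : E → ZMod 2)
    (h : ∀ e, x e ≠ 0 → q (s e) = q (t e)) (k : Q) :
    ∑ v with q v = k, bd s t x v = 0 := by
  simp only [bd]
  rw [sum_comm]
  refine sum_eq_zero fun e _ => ?_
  rw [sum_add_distrib, sum_ite_eq, sum_ite_eq]
  by_cases hx : x e = 0
  · simp [hx]
  · simp only [mem_filter, mem_univ, true_and, h e hx]
    exact z2 _

lemma bd_mul {Q : Type} (q : V → Q) (x : E → ZMod 2)
    (h : ∀ e, x e ≠ 0 → q (s e) = q (t e)) (g : Q → ZMod 2) (v : V) :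
    bd s t (fun e => x e * g (q (s e))) v = bd s t x v * g (q v) := by
  simp only [bd, sum_mul]
  refine sum_congr rfl fun e _ => ?_
  by_cases hx : x e = 0
  · simp [hx]
  · have := h e hx
    split_ifs with h1 h2 h2
    · rw [h1]; ring
    · rw [h1]; ring
    · rw [this, h2]; ring
    · simp

def cls (J : E → Prop) (v : V) : Quot (fun u v => ∃ e, J e ∧ s e = u ∧ t e = v) := Quot.mk _ v

lemma cls_eq {J : E → Prop} {e : E} (h : J e) : cls s t J (s e) = cls s t J (t e) :=
  Quot.sound ⟨e, h, rfl, rfl⟩

open Classical in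
lemma join (J : E → Prop) (U : V → ZMod 2) (h : ∀ k, ∑ v with cls s t J v = k, U v = 0) :
    ∃ α : E → ZMod 2, (∀ e, α e ≠ 0 → J e) ∧ bd s t α = U := by
  let P : (V → ZMod 2) → Prop := fun U => ∃ α : E → ZMod 2, (∀ e, α e ≠ 0 → J e) ∧ bd s t α = U
  have p0 : P 0 := ⟨0, by simp, by ext v; simp [bd]⟩
  have pa : ∀ A B, P A → P B → P (A + B) := by
    rintro _ _ ⟨α, a1, rfl⟩ ⟨β, b1, rfl⟩
    refine ⟨α + β, fun e he => ?_, by ext v; simp [bd_add]⟩
    by_contra hj
    exact he (by simp [not_not.1 (mt (a1 e) hj), not_not.1 (mt (b1 e) hj)])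
  have pp : ∀ u v, cls s t J u = cls s t J v → P (Pi.single u 1 + Pi.single v 1) := by
    intro u v h
    have := Quot.eqvGen_exact h
    clear h
    induction this with
    | rel u v h =>
      obtain ⟨e, h, rfl, rfl⟩ := h
      refine ⟨Pi.single e 1, fun f hf => ?_, ?_⟩
      · by_cases k : f = e
        · rwa [k]
        · simp [k] at hf
      · ext v
        simp only [bd]
        rw [sum_eq_single e (fun f _ k => by simp [k]) (by simp)]
        simp [Pi.single_apply, eq_comm]
    | refl u => convert p0; ext v; exact z2 _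
    | symm u v _ ih => rwa [add_comm]
    | trans u v w _ _ i1 i2 =>
      convert pa _ _ i1 i2 using 1
      ext z
      simp only [Pi.add_apply]
      linear_combination - z2 ((Pi.single v 1 : V → ZMod 2) z)
  have : P (∑ v, U v • (Pi.single v 1 + Pi.single (cls s t J v).out 1)) := by
    refine sum_induction _ P pa p0 fun v _ => ?_
    have : ∀ a : ZMod 2, a = 0 ∨ a = 1 := by decide
    rcases this (U v) with k | k
    · simpa [k] using p0
    · simpa [k] using pp _ _ (Quot.out_eq _).symm
  convert this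
  ext z
  simp only [smul_add, sum_add_distrib, Pi.add_apply, Finset.sum_apply, Pi.smul_apply,
    Pi.single_apply, smul_eq_mul, mul_ite, mul_one, mul_zero, sum_ite_eq, mem_univ, if_true]
  rw [← sum_filter]
  by_cases hz : z = (cls s t J z).out
  · have : (univ.filter fun v => z = (cls s t J v).out) =
        univ.filter fun v => cls s t J v = cls s t J z := by
      ext v
      simp only [mem_filter, mem_univ, true_and]
      exact ⟨fun k => by rw [k]; exact (Quot.out_eq _).symm, fun k => by rw [k]; exact hz⟩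
    rw [this, h, add_zero]
  · rw [sum_eq_zero, add_zero]
    intro v hv
    refine absurd ?_ hz
    have k := (mem_filter.1 hv).2
    have : cls s t J z = cls s t J v := by rw [k]; exact Quot.out_eq _
    rw [this]; exact k

def sp (f : V → ZMod 2) : Finset V := univ.filter fun v => f v ≠ 0

lemma two_le {Q : Type} [DecidableEq Q] (q : V → Q) (f : V → ZMod 2) (k : Q)
    (hk : k ∈ (sp f).image q) (h : ∑ v with q v = k, f v = 0) :
    2 ≤ #((sp f).filter fun v => q v = k) := by
  obtain ⟨u, hu, rfl⟩ := mem_image.1 hk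
  by_contra hc
  have h1 := card_le_one.1 (Nat.le_of_lt_succ (not_le.1 hc))
  rw [sum_eq_single u] at h
  · exact (mem_filter.1 hu).2 h
  · intro v hv hne
    by_contra k
    exact hne (h1 v (by simpa [sp, k] using hv) u (by simpa using hu))
  · simp

lemma pigeon {Q R : Type} [DecidableEq Q] [DecidableEq R] (q : V → Q) (r : V → R) (W : Finset V)
    (h : #(W.image q) + #(W.image r) < #W) : ∃ U : V → ZMod 2, U ≠ 0 ∧ sp U ⊆ W ∧
      (∀ k, ∑ v with q v = k, U v = 0) ∧ ∀ k, ∑ v with r v = k, U v = 0 := by
  let ex : (W → ZMod 2) → V → ZMod 2 := fun u v => if h : v ∈ W then u ⟨v, h⟩ else 0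
  obtain ⟨a, b, hne, he⟩ := Fintype.exists_ne_map_eq_of_card_lt
    (fun u : W → ZMod 2 => ((fun k : W.image q => ∑ v with q v = k, ex u v),
      (fun k : W.image r => ∑ v with r v = k, ex u v)))
    (by simpa [← pow_add] using Nat.pow_lt_pow_right (by norm_num : 1 < 2) h)
  have h0 : ∀ v, v ∉ W → (ex a - ex b) v = 0 := fun v hv => by simp [ex, hv]
  refine ⟨ex a - ex b, fun k => hne ?_, fun v hv => ?_, fun k => ?_, fun k => ?_⟩
  · ext v
    simpa [ex, sub_eq_zero] using congrFun k v
  · by_contra k
    exact (mem_filter.1 hv).2 (h0 v k)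
  · by_cases hk : k ∈ W.image q
    · simpa [sub_eq_zero] using congrFun (congrArg Prod.fst he) ⟨k, hk⟩
    · exact sum_eq_zero fun v hv => h0 v fun m => hk (mem_image.2 ⟨v, m, (mem_filter.1 hv).2⟩)
  · by_cases hk : k ∈ W.image r
    · simpa [sub_eq_zero] using congrFun (congrArg Prod.snd he) ⟨k, hk⟩
    · exact sum_eq_zero fun v hv => h0 v fun m => hk (mem_image.2 ⟨v, m, (mem_filter.1 hv).2⟩)

lemma fib {Q : Type} [DecidableEq Q] (q : V → Q) (A : Finset V) (X : Finset Q) :
    ∑ k ∈ X, #(A.filter fun v => q v = k) ≤ #A := by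
  rw [sum_card_fiberwise_eq_card_filter]; exact card_filter_le _ _

theorem core (x y : E → ZMod 2) : ∃ α β : E → ZMod 2, (∀ e, α e ≠ 0 → x e ≠ 0) ∧
    (∀ e, β e ≠ 0 → y e ≠ 0) ∧ (∀ e, α e = 0 ∨ β e = 0) ∧
    bd s t α + bd s t x = bd s t β + bd s t y ∧
    #(sp (bd s t α + bd s t x)) ≤ #(sp (bd s t x)) + #(sp (bd s t y)) := by
  classical
  let q := cls s t (fun e => x e ≠ 0)
  have hq : ∀ e, x e ≠ 0 → q (s e) = q (t e) := fun e h => cls_eq s t h
  let A := (sp (bd s t x)).image q
  let g := fun k => if k ∈ A then (1 : ZMod 2) else 0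
  let x1 := fun e => x e * g (q (s e))
  have hx1 : bd s t x1 = bd s t x := by
    ext v
    rw [bd_mul s t q x hq]
    by_cases h : bd s t x v = 0
    · simp [h]
    · have : q v ∈ A := mem_image_of_mem _ (by simpa [sp] using h)
      simp [g, this]
  let r := cls s t (fun e => y e ≠ 0 ∧ x1 e = 0)
  let P : (V → ZMod 2) → Prop := fun W => ∃ α β : E → ZMod 2, (∀ e, α e ≠ 0 → x1 e ≠ 0) ∧
    (∀ e, β e ≠ 0 → y e ≠ 0 ∧ x1 e = 0) ∧ W = bd s t α + bd s t x ∧ W = bd s t β + bd s t y
  have hP : ∃ n, ∃ W, P W ∧ #(sp W) = n := by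
    refine ⟨_, bd s t (x1 * y), ⟨x1 * y + x1, x1 * y + y, fun e h k => h (by simp [k]),
      fun e => ?_, ?_, ?_⟩, rfl⟩
    · simp only [Pi.add_apply, Pi.mul_apply]
      generalize x1 e = a; generalize y e = b; revert a b; decide
    · ext v; simp only [Pi.add_apply, bd_add, hx1, add_assoc, z2, add_zero]
    · ext v; simp only [Pi.add_apply, bd_add, add_assoc, z2, add_zero]
  obtain ⟨W, ⟨α, β, a1, b1, w1, w2⟩, hW⟩ := Nat.find_spec hP
  have x1x : ∀ e, x1 e ≠ 0 → x e ≠ 0 := fun e h k => h (by simp [x1, k])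
  have res : ∀ γ : E → ZMod 2, (∀ e, γ e ≠ 0 → x1 e ≠ 0) → (fun e => γ e * g (q (s e))) = γ := by
    intro γ h
    ext e
    by_cases k : γ e = 0
    · simp [k]
    · have := h e k
      by_cases m : q (s e) ∈ A <;> simp_all [x1, g]
  have hA : ∀ v ∈ sp W, q v ∈ A := by
    intro v hv
    by_contra k
    refine (mem_filter.1 hv).2 ?_
    rw [w1, ← hx1, ← res α a1, ← res x1 fun _ h => h, Pi.add_apply,
      bd_mul s t q α fun e h => hq e (x1x e (a1 e h)), bd_mul s t q x1 fun e h => hq e (x1x e h)]
    simp [g, k]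
  have c1 : #(sp W) ≤ #((sp W).image q) + #((sp W).image r) := by
    by_contra hc
    obtain ⟨U, u0, u1, u2, u3⟩ := pigeon q r (sp W) (not_le.1 hc)
    obtain ⟨α', a2, a3⟩ := join s t _ U (by convert u2)
    obtain ⟨β', b2, b3⟩ := join s t _ U (by convert u3)
    have a4 : bd s t (fun e => α' e * g (q (s e))) = U := by
      ext v
      rw [bd_mul s t q α' fun e h => hq e (a2 e h), a3]
      by_cases k : U v = 0
      · simp [k]
      · simp [g, hA v (u1 (by simpa [sp] using k))]
    refine Nat.find_min hP (m := #(sp (W + U))) ?_ ⟨W + U,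
      ⟨α + fun e => α' e * g (q (s e)), β + β', fun e h k => h ?_, fun e h => ?_, ?_, ?_⟩, rfl⟩
    · rw [← hW]
      obtain ⟨v, hv⟩ := Function.ne_iff.1 u0
      have hv' : v ∈ sp W := u1 (by simpa [sp] using hv)
      refine card_lt_card ⟨fun z hz => ?_, fun k => ?_⟩
      · by_contra k
        have k1 : U z = 0 := by
          by_contra k2
          exact k (u1 (by simpa [sp] using k2))
        simp_all [sp]
      · have := k hv'
        simp only [sp, mem_filter, mem_univ, true_and, Pi.add_apply, Pi.zero_apply] at *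
        revert this hv hv'
        generalize W v = a; generalize U v = b; revert a b; decide
    · have k1 : α e = 0 := not_not.1 fun h => a1 e h k
      by_cases k2 : α' e = 0
      · simp [k1, k2]
      · have := (mul_eq_zero.1 k).resolve_left (a2 e k2)
        simp [k1, this]
    · by_cases k : β e = 0
      · exact b2 e (by simpa [k] using h)
      · exact b1 e k
    · ext v; simp only [Pi.add_apply, bd_add, a4, w1]; ring
    · ext v; simp only [Pi.add_apply, bd_add, b3, w2]; ring
  have c2 : 2 * #A ≤ #(sp (bd s t x)) := by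
    refine le_trans ?_ (fib q _ A)
    rw [mul_comm, ← smul_eq_mul]
    exact card_nsmul_le_sum _ _ _ fun k hk => two_le q _ k hk (bd_sum s t q x hq k)
  have c3 : 2 * #((sp W).image r) ≤ #(sp W) + #(sp (bd s t y)) := by
    refine le_trans ?_ (add_le_add (fib r _ ((sp W).image r)) (fib r _ ((sp W).image r)))
    rw [mul_comm, ← smul_eq_mul, ← sum_add_distrib]
    refine card_nsmul_le_sum _ _ _ fun k hk => ?_
    by_cases h : ∑ v with r v = k, W v = 0
    · exact le_add_right (two_le r _ k hk h)
    · obtain ⟨u, hu, rfl⟩ := mem_image.1 hk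
      rw [w2] at h
      simp only [Pi.add_apply, sum_add_distrib] at h
      rw [bd_sum s t r β fun e h => cls_eq s t (b1 e h), zero_add] at h
      obtain ⟨v, hv, h⟩ := exists_ne_zero_of_sum_ne_zero h
      have e1 : 0 < #((sp W).filter fun v => r v = r u) := card_pos.2 ⟨u, by simpa using hu⟩
      have e2 : 0 < #((sp (bd s t y)).filter fun v => r v = r u) :=
        card_pos.2 ⟨v, mem_filter.2 ⟨mem_filter.2 ⟨mem_univ _, h⟩, (mem_filter.1 hv).2⟩⟩
      omega
  have c4 : #((sp W).image q) ≤ #A := card_le_card (image_subset_iff.2 hA)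
  refine ⟨α, β, fun e h => x1x e (a1 e h), fun e h => (b1 e h).1, fun e => ?_, w1 ▸ w2, ?_⟩
  · by_contra k
    push Not at k
    exact a1 e k.1 (b1 e k.2).2
  · rw [← w1]; omega

def inc (v : V) : Finset E := univ.filter fun e => s e = v ∨ t e = v

lemma bd_inc (hl : ∀ e, s e ≠ t e) (x : E → ZMod 2) (v : V) :
    bd s t x v = ∑ e ∈ inc s t v, x e := by
  rw [inc, sum_filter]
  refine sum_congr rfl fun e _ => ?_
  have := hl e
  by_cases h1 : s e = v <;> by_cases h2 : t e = v <;> simp_all

lemma recol [DecidableEq E] (h3 : ∀ v, #(inc s t v) = 3) (Z : Finset V) (S : Finset E) :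
    (∀ e ∈ S, t e ∈ Z) → ∀ c : E → Fin 3, (∀ v ∉ Z, ∀ e ∈ inc s t v, ∀ f ∈ inc s t v, e ∉ S → f ∉ S →
      e ≠ f → c e ≠ c f) → ∃ c : E → Fin 3, ∀ v ∉ Z, ∀ e ∈ inc s t v, ∀ f ∈ inc s t v,
      e ≠ f → c e ≠ c f := by
  induction S using Finset.induction_on with
  | empty => exact fun _ c h => ⟨c, fun v hv e he f hf => h v hv e he f hf (by simp) (by simp)⟩
  | insert g S hg ih =>
    intro hS c hc
    have : ∃ k, k ∉ ((inc s t (s g)).erase g).image c := by
      by_contra h
      push Not at h
      have h1 := card_le_card (fun k _ => h k : (univ : Finset (Fin 3)) ⊆ _)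
      have h2 := card_image_le (s := (inc s t (s g)).erase g) (f := c)
      rw [card_erase_of_mem (by simp [inc]), h3] at h2
      simp only [card_univ, Fintype.card_fin] at h1
      omega
    obtain ⟨k, hk⟩ := this
    have key : ∀ v ∉ Z, g ∈ inc s t v → ∀ f ∈ inc s t v, f ≠ g → k ≠ c f := by
      intro v hv h f hf hne e
      have : s g = v := by
        refine (mem_filter.1 h).2.resolve_right fun e => hv ?_
        rw [← e]; exact hS g (by simp)
      subst this
      exact hk (mem_image.2 ⟨f, mem_erase.2 ⟨hne, hf⟩, e.symm⟩)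
    refine ih (fun e he => hS e (by simp [he])) (Function.update c g k) ?_
    intro v hv e he f hf h1 h2 hne
    by_cases a : e = g <;> by_cases b : f = g
    · exact absurd (a.trans b.symm) hne
    · subst a; simpa [b] using key v hv he f hf b
    · subst b; simpa [a] using (key v hv hf e he a).symm
    · simpa [a, b] using hc v hv e he f hf (by simp [a, h1]) (by simp [b, h2]) hne

theorem main [DecidableEq E] (hl : ∀ e, s e ≠ t e) (h3 : ∀ v, #(inc s t v) = 3) (S : Finset E)
    (c : E → Fin 3) (hc : ∀ v, ∀ e ∈ inc s t v, ∀ f ∈ inc s t v, e ∉ S → f ∉ S →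
      e ≠ f → c e ≠ c f) : ∃ z a : E → ZMod 2, ∃ D : Finset V, bd s t z = 0 ∧
      (∀ e, a e ≠ 0 → z e ≠ 0) ∧ (∀ v ∉ D, bd s t a v = 1) ∧ #D ≤ 2 * #S := by
  obtain ⟨c, hc⟩ := recol s t h3 (S.image t) S (fun e he => mem_image_of_mem _ he) c
    fun v _ => hc v
  let x : E → ZMod 2 := fun e => ![1, 0, 1] (c e)
  let y : E → ZMod 2 := fun e => ![0, 1, 1] (c e)
  have hZ : ∀ v ∉ S.image t, bd s t x v = 0 ∧ bd s t y v = 0 := by
    intro v hv
    obtain ⟨e, f, g, h1, h2, h4, h⟩ := card_eq_three.1 (h3 v)
    have k := hc v hv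
    simp only [bd_inc s t hl, h] at k ⊢
    have k1 := k e (by simp) f (by simp) h1
    have k2 := k e (by simp) g (by simp) h2
    have k3 := k f (by simp) g (by simp) h4
    rw [sum_insert (by simp [h1, h2]), sum_pair h4, sum_insert (by simp [h1, h2]), sum_pair h4]
    simp only [x, y]
    revert k1 k2 k3
    generalize c e = a; generalize c f = b; generalize c g = d
    revert a b d; decide
  obtain ⟨α, β, a1, b1, ab, w, hw⟩ := core s t x y
  have nz : ∀ e, ¬ ((x + β) e = 0 ∧ (y + α) e = 0) := by
    intro e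
    have k : ¬ (x e = 0 ∧ y e = 0) := by
      simp only [x, y]; generalize c e = a; revert a; decide
    have := a1 e; have := b1 e; have := ab e
    simp only [Pi.add_apply]
    revert k
    generalize x e = p at *; generalize y e = q at *; generalize α e = r at *
    generalize β e = u at *
    revert p q r u; decide
  have eq : ∀ v, bd s t (x + β) v = bd s t (y + α) v := by
    intro v
    have := congrFun w v
    simp only [bd_add, Pi.add_apply] at this ⊢
    linear_combination z2 (bd s t x v) - z2 (bd s t y v) - this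
  refine ⟨x + β + (y + α), (x + β) * (1 + (y + α)), sp (bd s t (x + β)), ?_, fun e => ?_,
    fun v hv => ?_, ?_⟩
  · ext v; rw [bd_add, eq]; exact z2 _
  · simp only [Pi.mul_apply, Pi.add_apply (x + β), Pi.add_apply 1, Pi.one_apply]
    generalize (x + β) e = p; generalize (y + α) e = q; revert p q; decide
  · have k1 : bd s t (x + β) v = 0 := by simpa [sp] using hv
    have k2 := (eq v).symm.trans k1
    obtain ⟨e, f, g, h1, h2, h4, h⟩ := card_eq_three.1 (h3 v)
    rw [bd_inc s t hl, h, sum_insert (by simp [h1, h2]), sum_pair h4] at k1 k2 ⊢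
    have := nz e; have := nz f; have := nz g
    simp only [Pi.mul_apply, Pi.add_apply 1, Pi.one_apply]
    generalize (x + β) e = p at *; generalize (y + α) e = q at *
    generalize (x + β) f = p' at *; generalize (y + α) f = q' at *
    generalize (x + β) g = p'' at *; generalize (y + α) g = q'' at *
    revert p q p' q' p'' q''; decide
  · have k1 : sp (bd s t (x + β)) ⊆ sp (bd s t x + bd s t y) ∪ sp (bd s t α + bd s t x) := by
      intro v
      simp only [sp, mem_filter, mem_union, mem_univ, true_and, eq, bd_add, Pi.add_apply]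
      generalize bd s t x v = p; generalize bd s t y v = q; generalize bd s t α v = r
      revert p q r; decide
    have k2 : #(sp (bd s t x + bd s t y)) + #(sp (bd s t x)) + #(sp (bd s t y)) ≤
        ∑ v, if v ∈ S.image t then 2 else 0 := by
      simp only [sp, card_filter, ← sum_add_distrib, Pi.add_apply]
      refine sum_le_sum fun v _ => ?_
      by_cases h : v ∈ S.image t
      · rw [if_pos h]
        generalize bd s t x v = p; generalize bd s t y v = q; revert p q; decide
      · simp [hZ v h]
    rw [sum_ite_mem, univ_inter, sum_const, smul_eq_mul] at k2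
    have := (card_le_card k1).trans (card_union_le _ _)
    have := card_image_le (s := S) (f := t)
    omega

end Pool.Agent.H.WO
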